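import Pool.Agent.W905.TM.Main
import Pool.Agent.W905.TM.Ex
import Pool.Agent.W63.TM.Step
import Pool.Agent.W976.TM.LC
import Pool.Agent.W883.TM.ZS
import Pool.Agent.W906.TM.Sel
import Pool.Agent.W409.TM.PAR
import Pool.Agent.W409.TM.JUN
import Pool.Agent.W918.TM.RS

set_option autoImplicit false

/-!
# Constant depth circuits over tame families of composite modular gates do not compute majority

Circuits of constant depth `h` with AND, OR, NOT and `MOD_p` gates of unbounded fan-in (`p` prime)
and arbitrary gates of at most `n ^ δ` wires, at most `2 ^ (n ^ δ)` gates, whose inputs are the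
variables and at most `2 ^ (n ^ δ)` gates of unbounded fan-in that count modulo an arbitrary
composite number `m` with arbitrary weights. If all but `n ^ δ` of the weight vectors form a tame
family (any `k` of them divide the `n` variables into at most `c * k ^ v` classes), the circuit
does not compute the majority function. Here `δ = 1 / (8 (v + 1) m (h + 2))`.

Definitions used:

* `Tame c v a` (`Pool/Agent/W905/TM/Comb.lean`);
* `Circuit`, `Kind`, `DepthLE`, `Computes` (`Pool/Agent/H746R3/Inv/Circ.lean`, starting repository);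
* `Acc p C x` (`Pool/Agent/W905/TM/Circ.lean`): the circuit outputs `true` on `x`;
* `modGate a φ` and `ones` (`Pool/Agent/W905/TM/Main.lean`): the gate whose value is `φ` of the sum
  modulo `m` of the weights of the true variables; the number of true variables.
-/

namespace Pool.Agent.Results.MP_3586ff_lc.TameModularGates

open Finset H746R3.Inv Pool.Agent.W905.TM

open Classical in
theorem result :
    -- weight vectors with at most `b` breakpoints form a tame family
    (∀ {J : Type} {n m b : ℕ} (a : J → Fin n → ZMod m),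
      (∀ j, (univ.filter fun i : Fin n => ∃ h : i.1 + 1 < n, a j i ≠ a j ⟨i.1 + 1, h⟩).card ≤ b) →
      Tame (b + 1) 1 a) ∧
    -- weight vectors such that each variable occurs in at most `r` of them form a tame family
    (∀ {J : Type} [Fintype J] {n m r : ℕ} (_ : 0 < m) (a : J → Fin n → ZMod m),
      (∀ i, (univ.filter fun j => a j i ≠ 0).card ≤ r) → Tame ((m + 1) ^ r) r a) ∧
    -- circuits over tame families do not compute majority
    ∀ (p : ℕ) (_ : p.Prime) (m v h : ℕ) (_ : 0 < m) (δ : ℝ)
      (_ : δ = 1 / (8 * (v + 1) * m * (h + 2))) (c : ℕ),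
      ∃ n₀ : ℕ, ∀ n ≥ n₀, ∀ s : ℕ, (s : ℝ) ≤ 2 ^ ((n : ℝ) ^ δ) →
      ∀ (J : Type) [Fintype J] (a : J → Fin n → ZMod m) (φ : J → ZMod m → Bool) (B : Finset J),
      Fintype.card J ≤ s → (B.card : ℝ) ≤ (n : ℝ) ^ δ →
      Tame c v (fun j : {j // j ∉ B} => a j) →
      ∀ C : Circuit (Fin n ⊕ J) Unit, C.DepthLE h → C.G ≤ s →
      (∀ g, (C.kind g).IsWild → ((C.wires g).length : ℝ) ≤ (n : ℝ) ^ δ) →
      ¬ ∀ x : Fin n → Bool, Acc p C (Sum.elim x fun j => modGate (a j) (φ j) x) ↔
        n ≤ 2 * ones x := by
  refine ⟨fun a h => tame_breaks a h, fun hm a h => tame_read hm a h, ?_⟩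
  intro p hp m v h hm δ hδ c
  exact main_tm Pool.Agent.W918.TM.rs_holds Pool.Agent.W409.TM.jun
    (Pool.Agent.W976.TM.lc Pool.Agent.W63.TM.Step.step) Pool.Agent.W883.TM.ZS.main
    Pool.Agent.W906.TM.sel Pool.Agent.W409.TM.par p hp m v h hm δ hδ c

end Pool.Agent.Results.MP_3586ff_lc.TameModularGates
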